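import Mathlib
import Pool.Agent.H5.Touch3

namespace Pool.Agent.Results.MP_a2d1c1_co.Small

open Pool.Agent.H5.Touch

def adj (i : ℕ) : ℕ := (0x80004514aea000c01002a11828100401440059090890220480108280008848050302180001028001087b1004004286026100021040b5404010010c4240030540401211000686084011398003000210289084002488089000203001048489003c00100202001001122c04808008009614c001118c020204104004164022201400200020880028344040080068a10225010246218000041123100000401114001d08011080308849840110010000c20501100602008904004200c1010480900f0008000404c230400060000014821608005282000480680008130a1020200020800200ae0081440430010403001902240604200102024002200a80d0002240418120020004002200406a80000c19400020001002210005088401205870000000080005002082a09003d000020180000008c020c00800100a2608100802000a00010201892001000a9404080020d610000000080008500004602000480461010c0000020a20b1000000008a100282010000012004806008000f4084000000400012045020100000d46000040000000a80030200804000c060202400000014268100000000 >>> (58 * i)) % 288230376151711744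

def qx (j : ℕ) : ℕ := (0x4444543355625332165321672546687273344762201105067163858271 >>> (4 * j)) % 16

def qy (j : ℕ) : ℕ := (0x4637453453228764416533461713524538202560655622677701516788 >>> (4 * j)) % 16

def pick (a b c d u : ℕ) : ℕ :=
  bif Nat.beq (a &&& b &&& c &&& d &&& u) 0 then
    bif Nat.beq (((a &&& b &&& (c ||| d)) ||| (c &&& d &&& (a ||| b))) &&& u) 0 then
      bif Nat.beq (((a &&& (b ||| c ||| d)) ||| (b &&& (c ||| d)) ||| (c &&& d)) &&& u) 0 then
        Nat.log2 u
      else Nat.log2 (((a &&& (b ||| c ||| d)) ||| (b &&& (c ||| d)) ||| (c &&& d)) &&& u)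
    else Nat.log2 (((a &&& b &&& (c ||| d)) ||| (c &&& d &&& (a ||| b))) &&& u)
  else Nat.log2 (a &&& b &&& c &&& d &&& u)

def go (f : ℕ) : ℕ → ℕ → ℕ → ℕ → ℕ → Bool :=
  Nat.rec (fun _ _ _ _ _ => false)
    (fun _ ih a b c d u => force (pick a b c d u) fun v => force (u ^^^ (1 <<< v)) fun w =>
      force (adj v) fun m => Nat.blt v 58 &&
        (Nat.testBit a v || force (a ||| m) fun x => ih x b c d w) &&
        (Nat.testBit b v || force (b ||| m) fun x => ih a x c d w) &&
        (Nat.testBit c v || force (c ||| m) fun x => ih a b x d w) &&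
        (Nat.testBit d v || force (d ||| m) fun x => ih a b c x w)) f

theorem go_ok : go 60 (adj 49) (adj 41) (adj 31) 0 287665225027551231 = true := by decide +kernel

theorem go_sound (col : ℕ → Fin 4)
    (h : ∀ i < 58, ∀ j < 58, (adj i).testBit j = true → col i ≠ col j) :
    ∀ f a b c d u, go f a b c d u = true → (∀ j < 58, a.testBit j = true → col j ≠ 0) →
      (∀ j < 58, b.testBit j = true → col j ≠ 1) → (∀ j < 58, c.testBit j = true → col j ≠ 2) →
      (∀ j < 58, d.testBit j = true → col j ≠ 3) → False := by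
  intro f
  induction f with
  | zero => intro a b c d u hg; exact absurd hg (by simp [go])
  | succ f ih =>
    intro a b c d u hg ha hb hc hd
    have e : go (f + 1) a b c d u = force (pick a b c d u) fun v => force (u ^^^ (1 <<< v)) fun w =>
      force (adj v) fun m => Nat.blt v 58 &&
        (Nat.testBit a v || force (a ||| m) fun x => go f x b c d w) &&
        (Nat.testBit b v || force (b ||| m) fun x => go f a x c d w) &&
        (Nat.testBit c v || force (c ||| m) fun x => go f a b x d w) &&
        (Nat.testBit d v || force (d ||| m) fun x => go f a b c x w) := rfl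
    rw [e] at hg
    simp only [force_eq, Bool.and_eq_true, Bool.or_eq_true, Nat.blt_eq] at hg
    generalize pick a b c d u = v at hg
    obtain ⟨⟨⟨⟨hv, h0⟩, h1⟩, h2⟩, h3⟩ := hg
    have ext : ∀ (x : ℕ) (t : Fin 4), col v = t → (∀ j < 58, x.testBit j = true → col j ≠ t) →
        ∀ j < 58, (x ||| adj v).testBit j = true → col j ≠ t := by
      intro x t ht hx j hj hb
      rw [Nat.testBit_or, Bool.or_eq_true] at hb
      rcases hb with hb | hb
      · exact hx j hj hb
      · rw [← ht]; exact (h v hv j hj hb).symm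
    have : ∀ t : Fin 4, t = 0 ∨ t = 1 ∨ t = 2 ∨ t = 3 := by decide
    rcases this (col v) with ht | ht | ht | ht
    · exact h0.elim (fun hh => ha v hv hh ht) fun hh => ih _ _ _ _ _ hh (ext a 0 ht ha) hb hc hd
    · exact h1.elim (fun hh => hb v hv hh ht) fun hh => ih _ _ _ _ _ hh ha (ext b 1 ht hb) hc hd
    · exact h2.elim (fun hh => hc v hv hh ht) fun hh => ih _ _ _ _ _ hh ha hb (ext c 2 ht hc) hd
    · exact h3.elim (fun hh => hd v hv hh ht) fun hh => ih _ _ _ _ _ hh ha hb hc (ext d 3 ht hd)

theorem no_col (col : ℕ → Fin 4)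
    (h : ∀ i < 58, ∀ j < 58, (adj i).testBit j = true → col i ≠ col j) : False := by
  have p : ∀ a b d : Fin 4, a ≠ b → a ≠ d → b ≠ d → ∃ f : Fin 4 → Fin 4,
      (∀ x y, f x = f y → x = y) ∧ f a = 0 ∧ f b = 1 ∧ f d = 2 := by
    intro a b d h1 h2 h3
    refine ⟨fun x => if x = a then 0 else if x = b then 1 else if x = d then 2 else 3, ?_⟩
    revert a b d
    decide +kernel
  obtain ⟨f, hf, f0, f1, f2⟩ := p (col 49) (col 41) (col 31)
    (h _ (by norm_num) _ (by norm_num) (by decide +kernel))
    (h _ (by norm_num) _ (by norm_num) (by decide +kernel))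
    (h _ (by norm_num) _ (by norm_num) (by decide +kernel))
  have h' : ∀ i < 58, ∀ j < 58, (adj i).testBit j = true → f (col i) ≠ f (col j) :=
    fun i hi j hj hb he => h i hi j hj hb (hf _ _ he)
  refine go_sound (fun i => f (col i)) h' _ _ _ _ _ _ go_ok ?_ ?_ ?_ (by simp)
  · intro j hj hb; rw [← f0]; exact (h' _ (by norm_num) j hj hb).symm
  · intro j hj hb; rw [← f1]; exact (h' _ (by norm_num) j hj hb).symm
  · intro j hj hb; rw [← f2]; exact (h' _ (by norm_num) j hj hb).symm

theorem adj_sd : ∀ i < 58, ∀ j < 58, (adj i).testBit j = true →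
    Sd ((qx i : ℤ) - qx j) ((qy i : ℤ) - qy j) := by decide +kernel

theorem sd_frontier (a b : ℤ) (h : Sd a b) : (!₂[(a : ℝ), (b : ℝ)] : E2) ∈ frontier Oct := by
  obtain ⟨h1, h2, h3, h4, h5⟩ := h
  have r1 : |(a : ℝ)| ≤ 4 := by exact_mod_cast h1
  have r2 : |(b : ℝ)| ≤ 4 := by exact_mod_cast h2
  have r3 : |(a : ℝ) + b| ≤ 6 := by exact_mod_cast h3
  have r4 : |(a : ℝ) - b| ≤ 6 := by exact_mod_cast h4
  refine ⟨subset_closure ⟨r1, r2, r3, r4⟩, fun hi => ?_⟩
  have key : ∀ α β c : ℝ, 0 < α ^ 2 + β ^ 2 → (∀ k ∈ Oct, |α * k 0 + β * k 1| ≤ c) →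
      |α * a + β * b| < c := by
    intro α β c hab hK
    have t1 := int_lt Oct α β c hab (fun q hq => (abs_le.mp (hK q hq)).2) _ hi
    have t2 := int_lt Oct (-α) (-β) c (by simpa using hab)
      (fun q hq => by linarith [(abs_le.mp (hK q hq)).1]) _ hi
    simp only [Matrix.cons_val_zero, Matrix.cons_val_one, Matrix.cons_val_fin_one] at t1 t2
    rw [abs_lt]; constructor <;> linarith
  rcases h5 with h | h | h | h
  · have := key 1 0 4 (by norm_num) (fun k hk => by simpa using hk.1)
    have e : |(a : ℝ)| = 4 := by exact_mod_cast h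
    simp [e] at this
  · have := key 0 1 4 (by norm_num) (fun k hk => by simpa using hk.2.1)
    have e : |(b : ℝ)| = 4 := by exact_mod_cast h
    simp [e] at this
  · have := key 1 1 6 (by norm_num) (fun k hk => by simpa using hk.2.2.1)
    have e : |(a : ℝ) + b| = 6 := by exact_mod_cast h
    simp [e] at this
  · have := key 1 (-1) 6 (by norm_num) (fun k hk => by simpa [← sub_eq_add_neg] using hk.2.2.2)
    have e : |(a : ℝ) - b| = 6 := by exact_mod_cast h
    simp [← sub_eq_add_neg, e] at this

theorem result : ∃ K : Set (EuclideanSpace ℝ (Fin 2)),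
    Convex ℝ K ∧ IsCompact K ∧ (interior K).Nonempty ∧ (∀ p ∈ K, -p ∈ K) ∧
    ∃ X : Finset (EuclideanSpace ℝ (Fin 2)), X.card ≤ 58 ∧
      ∀ c : EuclideanSpace ℝ (Fin 2) → Fin 4,
        ∃ x ∈ X, ∃ y ∈ X, x - y ∈ frontier K ∧ c x = c y := by
  classical
  refine ⟨Oct, oct_convex, oct_compact, oct_int, ?_,
    (Finset.range 58).image fun j => (!₂[(qx j : ℝ), (qy j : ℝ)] : E2),
    Finset.card_image_le.trans (by simp), fun c => ?_⟩
  · rintro p ⟨h1, h2, h3, h4⟩
    refine ⟨by simpa using h1, by simpa using h2, ?_, ?_⟩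
    · simp only [PiLp.neg_apply]; rw [← neg_add, abs_neg]; exact h3
    · simp only [PiLp.neg_apply]; rw [← neg_sub', abs_neg]; exact h4
  · by_contra hcon
    refine no_col (fun j => c (!₂[(qx j : ℝ), (qy j : ℝ)] : E2)) fun i hi j hj hb he => hcon ?_
    refine ⟨_, Finset.mem_image_of_mem _ (Finset.mem_range.mpr hi), _,
      Finset.mem_image_of_mem _ (Finset.mem_range.mpr hj), ?_, he⟩
    have := sd_frontier _ _ (adj_sd i hi j hj hb)
    convert this using 1
    ext t
    fin_cases t <;> simp

end Pool.Agent.Results.MP_a2d1c1_co.Small
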